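import Pool.Agent.L7h51.KM.Stm

/-!
# KM, part DS: small sets which see the closure of the complement
-/

set_option autoImplicit false

namespace Pool.Agent.L7h56.KM

open Set Cardinal Pool.Agent.L7h51.KM

universe u

theorem un_lt' {α : Type u} {A B : Set α} {c : Cardinal.{u}} (hc : ℵ₀ ≤ c) (hA : Cardinal.mk A < c)
    (hB : Cardinal.mk B < c) : Cardinal.mk (A ∪ B : Set α) < c :=
  (Cardinal.mk_union_le A B).trans_lt (Cardinal.add_lt_of_lt hc hA hB)

theorem s_DS (hRL : S_RL.{u}) (hSK : S_SK.{u}) : S_DS.{u} := by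
  intro α M r c hc hrc hsm A hAE hA
  obtain ⟨BA, hBA⟩ := M.exists_isBasis A hAE
  obtain ⟨B1, hB1, hBA1⟩ := hBA.indep.exists_isBase_superset
  have hB1E : B1 ⊆ M.E := hB1.subset_ground
  -- `B2 = B1 \ BA` is outside `A`
  have hB2A : B1 \ BA ⊆ M.E \ A := by
    rintro x ⟨hx1, hx2⟩
    refine ⟨hB1E hx1, fun hxA => ?_⟩
    refine hB1.indep.notMem_closure_sdiff_of_mem hx1 ?_
    refine M.closure_subset_closure (X := BA) ?_ (hBA.subset_closure hxA)
    intro y hy
    exact ⟨hBA1 hy, fun h => hx2 (by rwa [mem_singleton_iff.1 h] at hy)⟩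
  obtain ⟨J, hJ, hB2J⟩ := (hB1.indep.subset sdiff_subset).subset_isBasis_of_subset hB2A sdiff_subset
  obtain ⟨J', hJ', hJJ'⟩ := hJ.indep.exists_isBase_superset
  obtain ⟨H, hHJ', hH, hAH⟩ := hRL α M r c hc hrc hsm J' A hJ'.indep
    (by rw [hJ'.closure_eq]; exact hAE) hA
  have hHE : H ⊆ M.E := hHJ'.trans hJ'.subset_ground
  -- `J' ⊆ H ∪ B2`
  have hspan : M.E ⊆ M.closure (H ∪ (B1 \ BA)) := by
    rw [← hB1.closure_eq]
    apply M.closure_subset_closure_of_subset_closure
    intro x hx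
    by_cases hxA : x ∈ BA
    · exact M.closure_subset_closure subset_union_left (hAH (hBA.subset hxA))
    · exact M.mem_closure_of_mem' (Or.inr ⟨hx, hxA⟩) (hB1E hx)
  have hJ'sub : J' ⊆ H ∪ (B1 \ BA) := by
    intro x hx
    by_contra hno
    refine hJ'.indep.notMem_closure_sdiff_of_mem hx ?_
    refine M.closure_subset_closure (X := H ∪ (B1 \ BA)) ?_ (hspan (hJ'.subset_ground hx))
    intro y hy
    refine ⟨?_, fun h => hno (by rwa [mem_singleton_iff.1 h] at hy)⟩
    rcases hy with hy | hy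
    · exact hHJ' hy
    · exact hJJ' (hB2J hy)
  have hKH : J \ (B1 \ BA) ⊆ H := fun x hx => (hJ'sub (hJJ' hx.1)).resolve_right hx.2
  have hK : Cardinal.mk (J \ (B1 \ BA) : Set α) < c := (Cardinal.mk_le_mk_of_subset hKH).trans_lt hH
  have hKE : J \ (B1 \ BA) ⊆ M.E := hKH.trans hHE
  obtain ⟨H', hH'B1, hH', hKH'⟩ := hRL α M r c hc hrc hsm B1 (J \ (B1 \ BA)) hB1.indep
    (by rw [hB1.closure_eq]; exact hKE) hK
  have hH'E : H' ⊆ M.E := hH'B1.trans hB1E
  refine ⟨(A ∪ (J \ (B1 \ BA))) ∪ H', fun x hx => Or.inl (Or.inl hx),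
    union_subset (union_subset hAE hKE) hH'E,
    un_lt' hc.aleph0_le (un_lt' hc.aleph0_le hA hK) hH', ?_⟩
  intro T hT e heA he
  set G : Set α := BA ∪ H' with hG
  set Q : Set α := (B1 \ BA) \ H' with hQ
  set P : Set α := (T ∪ (J \ (B1 \ BA))) ∪ ((B1 \ BA) ∩ H') with hP
  have hGE : G ⊆ M.E := union_subset (hBA.subset.trans hAE) hH'E
  have hGQ : M.Indep (G ∪ Q) := by
    refine hB1.indep.subset ?_
    rintro x ((hx | hx) | hx)
    · exact hBA1 hx
    · exact hH'B1 hx
    · exact hx.1.1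
  have hdis : Disjoint G Q := by
    rw [Set.disjoint_left]
    rintro x (hx | hx) hx2
    · exact hx2.1.2 hx
    · exact hx2.2 hx
  have hPG : P ⊆ M.closure G := by
    rintro x ((hx | hx) | hx)
    · exact M.closure_subset_closure subset_union_left (hBA.subset_closure (hT hx))
    · exact M.closure_subset_closure subset_union_right (hKH' hx)
    · exact M.mem_closure_of_mem' (Or.inr hx.2) (hH'E hx.2)
  have hmem1 : e ∈ M.closure (P ∪ Q) := by
    have h1 : M.closure (T ∪ (M.E \ A)) ⊆ M.closure (P ∪ Q) := by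
      apply M.closure_subset_closure_of_subset_closure
      have hsub : T ∪ J ⊆ P ∪ Q := by
        rintro x (hx | hx)
        · exact Or.inl (Or.inl (Or.inl hx))
        · by_cases h2 : x ∈ B1 \ BA
          · by_cases h3 : x ∈ H'
            · exact Or.inl (Or.inr ⟨h2, h3⟩)
            · exact Or.inr ⟨h2, h3⟩
          · exact Or.inl (Or.inl (Or.inr ⟨hx, h2⟩))
      rintro x (hx | hx)
      · exact M.mem_closure_of_mem' (hsub (Or.inl hx)) (hAE (hT hx))
      · exact M.closure_subset_closure (subset_union_right.trans hsub) (hJ.subset_closure hx)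
    exact h1 he
  have hmem2 : e ∈ M.closure G :=
    M.closure_subset_closure subset_union_left (hBA.subset_closure heA)
  have h3 := hSK α M G Q P hGQ hdis hPG ⟨hmem1, hmem2⟩
  refine M.closure_subset_closure ?_ h3
  rintro x ((hx | hx) | hx)
  · exact Or.inl hx
  · exact Or.inr ⟨Or.inl (Or.inr hx), (hJ.subset hx.1).2⟩
  · exact Or.inr ⟨Or.inr hx.2, (hB2A hx.1).2⟩

end Pool.Agent.L7h56.KM
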