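import Pool.Agent.L7h51.KM.Stm

/-!
# KM, part REM: the complement of a good set is extendable
-/

set_option autoImplicit false

namespace Pool.Agent.L7h56.KM

open Set Cardinal Pool.Agent.L7h51.KM

universe u

theorem un_lt {α : Type u} {A B : Set α} {c : Cardinal.{u}} (hc : ℵ₀ ≤ c) (hA : Cardinal.mk A < c)
    (hB : Cardinal.mk B < c) : Cardinal.mk (A ∪ B : Set α) < c :=
  (Cardinal.mk_union_le A B).trans_lt (Cardinal.add_lt_of_lt hc hA hB)

theorem sun_lt {α : Type u} {A : Set (Set α)} {c : Cardinal.{u}} (hc : c.IsRegular)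
    (hA : Cardinal.mk A < c) (h : ∀ C ∈ A, Cardinal.mk C < c) : Cardinal.mk (⋃₀ A : Set α) < c := by
  rw [sUnion_eq_biUnion]
  exact (card_biUnion_lt_iff_forall_of_isRegular (t := fun a _ => a) hc hA).2 h

theorem s_REM (hF2 : S_F2.{u}) : S_REM.{u} := by
  intro α M r l hr hl hrl hsm hext U hUE hU hgood 𝒜 h𝒜 hcard e he
  have hR : M.E \ U ⊆ M.E := sdiff_subset
  have he' : e ∈ (M.E \ U) \ ⋃₀ 𝒜 := he
  -- `𝒜` is a matching of `M`
  have hM : IsMatching M 𝒜 := by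
    refine ⟨fun C hC => ?_, h𝒜.2⟩
    exact ((Matroid.restrict_isCircuit_iff hR).1 (h𝒜.1 C hC)).1
  have hZ : Cardinal.mk (⋃₀ 𝒜 : Set α) < r := sun_lt hr hcard fun C hC => hsm C (hM.1 C hC)
  by_contra hno
  set S : Set α := ((M.E \ U) \ ⋃₀ 𝒜) \ {e} with hS
  have heS : e ∉ S := by simp [hS]
  have hSE : S ⊆ M.E := fun x hx => hx.1.1.1
  have hcl : e ∉ M.closure S := by
    intro hcl
    obtain ⟨C, hCS, hC, heC⟩ := (Matroid.mem_closure_iff_exists_isCircuit heS).1 hcl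
    have hsub : C ⊆ (M.E \ U) \ ⋃₀ 𝒜 := by
      intro x hx
      rcases hCS hx with h | h
      · rw [h]; exact he'
      · exact h.1
    exact hno ⟨C, (Matroid.restrict_isCircuit_iff hR).2 ⟨hC, hsub.trans sdiff_subset⟩, heC,
      Set.disjoint_left.2 fun x hx hx2 => (hsub hx).2 hx2⟩
  obtain ⟨D, hD, heD, hdis⟩ := hF2 α M S e hSE he'.1.1 hcl
  have hDS : Disjoint D S := hdis.mono_right (M.subset_closure S hSE)
  have hDE : D ⊆ M.E := hD.subset_ground
  have hDsub : D ⊆ (U ∪ ⋃₀ 𝒜) ∪ {e} := by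
    intro x hx
    by_contra h
    simp only [mem_union, mem_singleton_iff, not_or] at h
    exact Set.disjoint_left.1 hDS hx ⟨⟨⟨hDE hx, h.1.1⟩, h.1.2⟩, h.2⟩
  have hDl : Cardinal.mk D < l := by
    refine (Cardinal.mk_le_mk_of_subset hDsub).trans_lt ?_
    refine un_lt hl.aleph0_le (un_lt hl.aleph0_le hU (hZ.trans hrl)) ?_
    rw [Cardinal.mk_singleton]
    exact (Cardinal.one_lt_aleph0).trans_le hl.aleph0_le
  have hDU : ¬ (D ∩ U).Nonempty := fun h => he'.1.2 (hgood D hD hDl h heD)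
  obtain ⟨C, hC, heC, hCZ⟩ := hext 𝒜 hM hcard e ⟨he'.1.1, he'.2⟩
  refine hC.inter_isCocircuit_ne_singleton hD (e := e) ?_
  ext x
  simp only [mem_inter_iff, mem_singleton_iff]
  constructor
  · rintro ⟨h1, h2⟩
    rcases hDsub h2 with (h | h) | h
    · exact absurd ⟨x, h2, h⟩ hDU
    · exact absurd h (Set.disjoint_left.1 hCZ h1)
    · exact h
  · rintro rfl
    exact ⟨heC, heD⟩

end Pool.Agent.L7h56.KM
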